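import Pool.Agent.H444Z.BF.Defs

set_option autoImplicit false

namespace Pool.Agent.H444Z.BF

open Finset

/-- sum of `g` over all one-letter deletions -/
def S {α : Type} : (List α → ℕ) → List α → ℕ
  | _, [] => 0
  | g, a :: l => g l + S (fun z => g (a :: z)) l

theorem S_append {α : Type} (x y : List α) (g : List α → ℕ) :
    S g (x ++ y) = S (fun z => g (z ++ y)) x + S (fun z => g (x ++ z)) y := by
  induction x generalizing g with
  | nil => simp [S]
  | cons a l ih =>
    simp only [List.cons_append, S]
    rw [ih]
    omega

theorem S_congr {α : Type} (x : List α) (g g' : List α → ℕ)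
    (h : ∀ z : List α, z.length + 1 = x.length → g z = g' z) : S g x = S g' x := by
  induction x generalizing g g' with
  | nil => simp [S]
  | cons a l ih =>
    simp only [S]
    rw [h l (by simp), ih (fun z => g (a :: z)) (fun z => g' (a :: z))]
    intro z hz
    exact h _ (by simp [hz])

theorem S_zero {α : Type} (x : List α) : S (fun _ => 0) x = 0 := by
  induction x with
  | nil => simp [S]
  | cons a l ih => simp [S, ih]

theorem S_mul {α : Type} (x : List α) (g : List α → ℕ) (c d : ℕ) :
    S (fun z => c * g z * d) x = c * S g x * d := by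
  induction x generalizing g with
  | nil => simp [S]
  | cons a l ih =>
    simp only [S]
    rw [ih (fun z => g (a :: z))]
    ring

theorem S_sum {α β : Type} (s : Finset β) (x : List α) (g : β → List α → ℕ) :
    S (fun z => ∑ b ∈ s, g b z) x = ∑ b ∈ s, S (g b) x := by
  induction x generalizing g with
  | nil => simp [S]
  | cons a l ih =>
    simp only [S]
    rw [ih (fun b z => g b (a :: z)), Finset.sum_add_distrib]

theorem S_ofFn {α : Type} (n : ℕ) (x : Fin (n + 1) → α) (g : List α → ℕ) :
    S g (List.ofFn x) = ∑ i : Fin (n + 1), g (List.ofFn (fun j => x (i.succAbove j))) := by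
  induction n generalizing g with
  | zero => simp [S]
  | succ n ih =>
    rw [List.ofFn_succ, S, ih, Fin.sum_univ_succ (n := n + 1)]
    congr 1
    refine Finset.sum_congr rfl fun i _ => ?_
    rw [List.ofFn_succ]
    simp

def Bl : ℕ → List (Fin 4) → ℕ
  | 0, _ => 1
  | n + 1, x => if x.IsChain (· ≠ ·) then S (Bl n) x else 0

def B (x : List (Fin 4)) : ℕ := Bl x.length x

theorem B_nil : B [] = 1 := rfl

theorem B_of_ne {x : List (Fin 4)} (hx : x ≠ []) :
    B x = if x.IsChain (· ≠ ·) then S B x else 0 := by
  obtain ⟨a, l, rfl⟩ := List.exists_cons_of_ne_nil hx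
  unfold B
  rw [List.length_cons, Bl]
  congr 1
  apply S_congr
  intro z hz
  have : z.length = l.length := by simpa using hz
  rw [this]

theorem B_not_chain {x : List (Fin 4)} (hx : ¬ x.IsChain (· ≠ ·)) : B x = 0 := by
  have h : x ≠ [] := by
    rintro rfl
    exact hx List.isChain_nil
  rw [B_of_ne h, if_neg hx]

theorem B_chain {x : List (Fin 4)} (h : x ≠ []) (hx : x.IsChain (· ≠ ·)) : B x = S B x := by
  rw [B_of_ne h, if_pos hx]

theorem B_rep (x y : List (Fin 4)) (a : Fin 4) : B (x ++ a :: a :: y) = 0 := by
  apply B_not_chain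
  intro h
  rw [List.isChain_append] at h
  have := h.2.1
  simp at this

theorem bld_eq (n : ℕ) (x : Fin n → Fin 4) : bld n x = B (List.ofFn x) := by
  induction n with
  | zero => simp [bld, B_nil]
  | succ n ih =>
    rw [B_of_ne (by simp), bld, S_ofFn]
    have : (∀ i : Fin n, x i.castSucc ≠ x i.succ) ↔ (List.ofFn x).IsChain (· ≠ ·) := by
      rw [List.isChain_ofFn]
      constructor
      · intro h i hi
        exact h ⟨i, by omega⟩
      · intro h i
        exact h i (by omega)
    by_cases hc : ∀ i : Fin n, x i.castSucc ≠ x i.succ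
    · rw [if_pos hc, if_pos (this.mp hc)]
      exact Finset.sum_congr rfl fun i _ => ih _
    · rw [if_neg hc, if_neg (fun h => hc (this.mpr h))]

theorem key_aux (c d : Fin 4) (L R : Fin 4 → ℕ) (M : ℕ) (h1 : L d = 0) (h2 : c ≠ d → L c = M)
    (h3 : R c = 0) (h4 : c ≠ d → R d = M) (h5 : c = d → M = 0) :
    ∑ a : Fin 4, (if c ≠ a ∧ a ≠ d then L a + (M + R a) else 0) =
      ∑ a : Fin 4, L a + ∑ a : Fin 4, R a := by
  simp only [Fin.sum_univ_four]
  fin_cases c <;> fin_cases d <;> simp at h1 h2 h3 h4 h5 ⊢ <;> omega

theorem key_aux2 (d : Fin 4) (R : Fin 4 → ℕ) (M : ℕ) (h4 : R d = M) :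
    ∑ a : Fin 4, (if a ≠ d then M + R a else 0) = 2 * M + ∑ a : Fin 4, R a := by
  simp only [Fin.sum_univ_four]
  fin_cases d <;> simp at h4 ⊢ <;> omega

theorem key (N : ℕ) : ∀ x y : List (Fin 4), x.length + y.length = N →
    ∑ a : Fin 4, B (x ++ a :: y) =
      2 * Nat.choose (x.length + y.length + 2) (x.length + 1) * B x * B y := by
  induction N using Nat.strong_induction_on with
  | _ N ih =>
  intro x y hN
  by_cases hx : x.IsChain (· ≠ ·)
  swap
  · rw [B_not_chain hx]
    simp only [mul_zero, zero_mul]
    refine Finset.sum_eq_zero fun a _ => B_not_chain fun h => hx ?_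
    exact (List.isChain_append.mp h).1
  by_cases hy : y.IsChain (· ≠ ·)
  swap
  · rw [B_not_chain hy]
    simp only [mul_zero]
    refine Finset.sum_eq_zero fun a _ => B_not_chain fun h => hy ?_
    exact ((List.isChain_append.mp h).2.1).tail
  have hL : x ≠ [] → ∑ a : Fin 4, S (fun z => B (z ++ a :: y)) x =
      2 * Nat.choose (x.length + y.length + 1) x.length * B x * B y := by
    intro hne
    rw [← S_sum, B_chain hne hx, ← S_mul]
    apply S_congr
    intro z hz
    rw [ih (z.length + y.length) (by omega) z y rfl, ← hz]
    congr 4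
    omega
  have hR : y ≠ [] → ∑ a : Fin 4, S (fun z => B (x ++ a :: z)) y =
      2 * Nat.choose (x.length + y.length + 1) (x.length + 1) * B x * B y := by
    intro hne
    rw [← S_sum, B_chain hne hy]
    have := S_mul y B (2 * Nat.choose (x.length + y.length + 1) (x.length + 1) * B x) 1
    rw [mul_one] at this
    rw [← this]
    apply S_congr
    intro z hz
    rw [ih (x.length + z.length) (by omega) x z rfl, ← hz, mul_one]
    congr 4
  have hB : ∀ a : Fin 4, B (x ++ a :: y) = if (x ++ a :: y).IsChain (· ≠ ·) then
      S (fun z => B (z ++ a :: y)) x + (B (x ++ y) + S (fun z => B (x ++ a :: z)) y) else 0 := by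
    intro a
    rw [B_of_ne (by simp), S_append, S]
  simp only [hB]
  rcases List.eq_nil_or_concat x with rfl | ⟨x', c, rfl⟩
  · rcases y with _ | ⟨d, y'⟩
    · simp [S, B_nil]
    · have h1 := hR (by simp)
      have h2 : ∀ a : Fin 4, ([] ++ a :: d :: y').IsChain (· ≠ ·) ↔ a ≠ d := by
        intro a
        simp [hy]
      simp only [h2, S, zero_add]
      simp only [S] at h1
      have h3 := key_aux2 d (fun a => B ([] ++ a :: y') +
        S (fun z => B ([] ++ a :: d :: z)) y') (B ([] ++ d :: y')) (by
          have : (fun z => B ([] ++ d :: d :: z)) = fun _ => 0 := funext fun z => B_rep [] z d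
          simp only [this, S_zero, add_zero])
      rw [h3, h1]
      simp [B_nil]
      ring
  · rw [List.concat_eq_append] at *
    have h1 := hL (by simp)
    rcases y with _ | ⟨d, y'⟩
    · have h2 : ∀ a : Fin 4, ((x' ++ [c]) ++ [a]).IsChain (· ≠ ·) ↔ a ≠ c := by
        intro a
        rw [List.isChain_append]
        simp [hx, ne_comm]
      simp only [h2, S, add_zero]
      have h3 := key_aux2 c (fun a => S (fun z => B (z ++ [a])) (x' ++ [c]))
        (B (x' ++ [c] ++ [])) (by
          rw [S_append]
          have : (fun z => B (z ++ [c] ++ [c])) = fun _ => 0 := funext fun z => by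
            rw [List.append_assoc]; exact B_rep z [] c
          simp only [this, S_zero, S]
          simp)
      simp only [add_comm (B (x' ++ [c] ++ []))] at h3
      rw [h3, h1]
      simp [B_nil, Nat.choose_succ_self_right]
      ring
    · have h1' := hR (by simp)
      have h2 : ∀ a : Fin 4, ((x' ++ [c]) ++ a :: d :: y').IsChain (· ≠ ·) ↔ c ≠ a ∧ a ≠ d := by
        intro a
        rw [List.isChain_append]
        simp [hx, hy, and_comm]
      simp only [h2]
      have h3 := key_aux c d (fun a => S (fun z => B (z ++ a :: d :: y')) (x' ++ [c]))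
        (fun a => S (fun z => B (x' ++ [c] ++ a :: z)) (d :: y')) (B (x' ++ [c] ++ d :: y'))
        (by
          have : (fun z => B (z ++ d :: d :: y')) = fun _ => 0 := funext fun z => B_rep z y' d
          simp only [this, S_zero])
        (by
          intro _
          rw [S_append]
          have : (fun z => B (z ++ [c] ++ c :: d :: y')) = fun _ => 0 := funext fun z => by
            rw [List.append_assoc]; exact B_rep z _ c
          simp only [this, S_zero, S]
          simp)
        (by
          have : (fun z => B (x' ++ [c] ++ c :: z)) = fun _ => 0 := funext fun z => by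
            rw [List.append_assoc]; exact B_rep x' _ c
          simp only [this, S_zero])
        (by
          intro _
          have : (fun z => B (x' ++ [c] ++ d :: d :: z)) = fun _ => 0 :=
            funext fun z => B_rep _ z d
          simp only [S, this, S_zero, add_zero])
        (by
          rintro rfl
          rw [List.append_assoc]; exact B_rep x' _ c)
      rw [h3, h1, h1', Nat.choose_succ_succ' ((x' ++ [c]).length + (d :: y').length + 1)]
      ring

theorem key' (x y : List (Fin 4)) :
    ∑ a : Fin 4, B (x ++ a :: y) =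
      2 * Nat.choose (x.length + y.length + 2) (x.length + 1) * B x * B y :=
  key _ x y rfl

theorem two_letter_aux (l : List (Fin 4)) : ∀ (a b : Fin 4) (p : List (Fin 4)),
    (a :: (l ++ [b])).IsChain (· ≠ ·) → (∀ c ∈ a :: (l ++ [b]), c = 0 ∨ c = 1) →
    S (fun z => B (p ++ a :: (z ++ [b]))) l = 0 := by
  induction l with
  | nil => intros; simp [S]
  | cons c l ih =>
    intro a b p hc h01
    simp only [S]
    have hc' : (c :: (l ++ [b])).IsChain (· ≠ ·) := hc.tail
    have h2 := ih c b (p ++ [a]) hc' (fun e he => h01 e (List.mem_cons_of_mem _ he))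
    simp only [List.append_assoc, List.singleton_append] at h2
    simp only [List.cons_append]
    rw [h2, add_zero]
    obtain ⟨e, l', he⟩ := List.exists_cons_of_ne_nil (l := l ++ [b]) (by simp)
    rw [he]
    rw [List.cons_append, he] at hc h01
    have hac : a ≠ c := by simpa using (List.isChain_cons_cons.mp hc).1
    have hce : c ≠ e := (List.isChain_cons_cons.mp hc.tail).1
    have ha := h01 a (by simp)
    have hc0 := h01 c (by simp)
    have he0 := h01 e (by simp)
    have : a = e := by
      rcases ha with rfl | rfl <;> rcases hc0 with rfl | rfl <;> rcases he0 with rfl | rfl <;>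
        simp_all
    subst this
    exact B_rep p l' a

theorem two_letter (n : ℕ) : ∀ x : List (Fin 4), x.length = n + 1 → x.IsChain (· ≠ ·) →
    (∀ c ∈ x, c = 0 ∨ c = 1) → B x = 2 ^ n := by
  induction n with
  | zero =>
    intro x hx _ _
    obtain ⟨a, rfl⟩ := List.length_eq_one_iff.mp hx
    rfl
  | succ n ih =>
    intro x hx hc h01
    obtain ⟨a, l, rfl⟩ := List.exists_cons_of_ne_nil (l := x) (by rintro rfl; simp at hx)
    rcases List.eq_nil_or_concat l with rfl | ⟨l', b, rfl⟩
    · simp at hx
    rw [List.concat_eq_append] at *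
    rw [B_chain (by simp) hc, S, S_append]
    have h1 := two_letter_aux l' a b [] hc h01
    simp only [List.nil_append] at h1
    rw [h1, ih (l' ++ [b]) (by simpa using hx) hc.tail (fun c hc => h01 c (List.mem_cons_of_mem _ hc))]
    simp only [S, List.append_nil, zero_add, add_zero]
    rw [ih (a :: l') (by simpa using hx) ?_ ?_]
    · ring
    · rw [← List.cons_append] at hc
      exact (List.isChain_append.mp hc).1
    · intro c hc
      apply h01
      rw [← List.cons_append]
      exact List.mem_append_left _ hc

end Pool.Agent.H444Z.BF
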