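import Mathlib

/-!
# The building numbers of the 1-dependent 4-coloring

The colors `1, 2, 3, 4` are the elements `0, 1, 2, 3` of `Fin 4`, and the letters `1, 2, ⋆` are
the elements `0, 1, 2` of `Fin 3`.
-/

set_option autoImplicit false

namespace Pool.Agent.H444Z.BF

/-- `bld n x` is the number `B(x)` of the word `x` of length `n`: `B(∅) = 1`, and for `n ≥ 1`
it is `0` if `x` is not proper, and otherwise the sum of `B` over the `n` words obtained by
removing one letter of `x`. -/
def bld : (n : ℕ) → (Fin n → Fin 4) → ℕ
  | 0, _ => 1
  | n + 1, x =>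
    if ∀ i : Fin n, x i.castSucc ≠ x i.succ then
      ∑ i : Fin (n + 1), bld n (fun j => x (i.succAbove j))
    else 0

/-- The normalising constant `Z(n)`: the sum of `B(y)` over all words `y` of length `n`. -/
def total (n : ℕ) : ℕ := ∑ y : Fin n → Fin 4, bld n y

/-- The map `ι` which keeps the first two colors and merges the last two into `⋆`. -/
def iota (c : Fin 4) : Fin 3 := if c = 0 then 0 else if c = 1 then 1 else 2

end Pool.Agent.H444Z.BF
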