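import Pool.Agent.H444Z.BF.Main

set_option autoImplicit false

namespace Pool.Agent.H444Z.BF

open MeasureTheory ProbabilityTheory Set

theorem ext_windows {α : Type} [MeasurableSpace α] [Fintype α] [MeasurableSingletonClass α]
    (μ ν : Measure (ℤ → α)) [IsProbabilityMeasure μ] [IsProbabilityMeasure ν]
    (h : ∀ (i : ℤ) (n : ℕ) (w : Fin n → α), μ {ω | ∀ j : Fin n, ω (i + (j : ℕ)) = w j} =
      ν {ω | ∀ j : Fin n, ω (i + (j : ℕ)) = w j}) : μ = ν := by
  have hw : ∀ (i : ℤ) (n : ℕ), μ.map (fun ω (j : Fin n) => ω (i + (j : ℕ))) =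
      ν.map (fun ω (j : Fin n) => ω (i + (j : ℕ))) := by
    intro i n
    refine Measure.ext_of_singleton fun w => ?_
    rw [Measure.map_apply (by fun_prop) (measurableSet_singleton _),
      Measure.map_apply (by fun_prop) (measurableSet_singleton _)]
    have e : (fun (ω : ℤ → α) (j : Fin n) => ω (i + (j : ℕ))) ⁻¹' {w} =
        {ω | ∀ j : Fin n, ω (i + (j : ℕ)) = w j} := by
      ext ω; simp [funext_iff]
    rw [e, h]
  have hI : ∀ I : Finset ℤ, μ.map I.restrict = ν.map I.restrict := by
    intro I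
    obtain ⟨a, ha⟩ := I.bddBelow
    obtain ⟨b, hb⟩ := I.bddAbove
    let n : ℕ := (b - a).toNat + 1
    have hlt : ∀ t : I, ((t : ℤ) - a).toNat < n := by
      intro t
      have h1 : a ≤ t := ha t.2
      have h2 : (t : ℤ) ≤ b := hb t.2
      simp only [n]
      omega
    let r : (Fin n → α) → (I → α) := fun y t => y ⟨((t : ℤ) - a).toNat, hlt t⟩
    have hr : Measurable r := by fun_prop
    have e : (I.restrict : (ℤ → α) → (I → α)) = r ∘ (fun ω (j : Fin n) => ω (a + (j : ℕ))) := by
      funext ω t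
      have h1 : a ≤ t := ha t.2
      simp only [Finset.restrict, r, Function.comp]
      congr 1
      omega
    rw [e, ← Measure.map_map hr (by fun_prop), ← Measure.map_map hr (by fun_prop), hw]
  have : ∀ I : Finset ℤ, IsFiniteMeasure (ν.map I.restrict) := fun I => inferInstance
  exact IsProjectiveLimit.unique (P := fun I => ν.map I.restrict) hI (fun _ => rfl)

theorem law_eq (μ : Measure (ℤ → Fin 4)) [IsProbabilityMeasure μ]
    (hμ : ∀ (i : ℤ) (n : ℕ) (x : Fin n → Fin 4),
      μ {ω | ∀ j : Fin n, ω (i + (j : ℕ)) = x j} = (bld n x : ENNReal) / (total n : ENNReal)) :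
    μ.map (fun ω (i : ℤ) => iota (ω i)) =
      mu.map (fun u (i : ℤ) => f3 (fun k : Fin 3 => u (i + (k : ℕ)))) := by
  have m1 : Measurable (fun (ω : ℤ → Fin 4) (i : ℤ) => iota (ω i)) :=
    measurable_pi_lambda _ fun i => (measurable_of_countable iota).comp (measurable_pi_apply i)
  have m2 : Measurable (fun (u : ℤ → E) (i : ℤ) => f3 (fun k : Fin 3 => u (i + (k : ℕ)))) :=
    measurable_pi_lambda _ fun i => meas_f3.comp (by fun_prop)
  have := Measure.isProbabilityMeasure_map (μ := μ) m1.aemeasurable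
  have := Measure.isProbabilityMeasure_map (μ := mu) m2.aemeasurable
  apply ext_windows
  intro i n w
  have ms : ∀ {α : Type} [MeasurableSpace α] [MeasurableSingletonClass α] (w : Fin n → α),
      MeasurableSet {ω : ℤ → α | ∀ j : Fin n, ω (i + (j : ℕ)) = w j} := by
    intro α _ _ w
    rw [Set.ofPred_forall]
    refine MeasurableSet.iInter fun j => ?_
    have hm : Measurable (fun ω : ℤ → α => ω (i + (j : ℕ))) := measurable_pi_apply _
    exact hm (measurableSet_singleton (w j))
  rw [Measure.map_apply m1 (ms w), Measure.map_apply m2 (ms w)]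
  have h1 := cyl i n w
  refine Eq.trans ?_ h1.symm
  have e : (fun (ω : ℤ → Fin 4) (i : ℤ) => iota (ω i)) ⁻¹'
      {ω | ∀ j : Fin n, ω (i + (j : ℕ)) = w j} =
      ⋃ x ∈ Finset.univ.filter (fun x : Fin n → Fin 4 => ∀ j, iota (x j) = w j),
        {ω | ∀ j : Fin n, ω (i + (j : ℕ)) = x j} := by
    ext ω
    simp only [mem_preimage, mem_ofPred_eq, mem_iUnion, Finset.mem_filter, Finset.mem_univ,
      true_and, exists_prop]
    constructor
    · intro h
      exact ⟨fun j => ω (i + (j : ℕ)), h, fun _ => rfl⟩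
    · rintro ⟨x, h1, h2⟩ j
      rw [h2, h1]
  rw [e, measure_biUnion_finset]
  · exact Finset.sum_congr rfl fun x _ => hμ i n x
  · intro x _ y _ hxy
    simp only [Function.onFun]
    rw [Set.disjoint_left]
    intro ω h1 h2
    exact hxy (funext fun j => (h1 j).symm.trans (h2 j))
  · intro x _
    exact ms x

end Pool.Agent.H444Z.BF
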