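import Pool.Agent.H444Z.BF.Comb

set_option autoImplicit false

namespace Pool.Agent.H444Z.BF

open Finset

theorem total_eq (n : ℕ) : total n = (n + 1).factorial * 2 ^ n := by
  induction n with
  | zero => simp [total, bld]
  | succ n ih =>
    unfold total at *
    simp only [bld_eq] at *
    rw [← (Fin.consEquiv (fun _ : Fin (n + 1) => Fin 4)).sum_comp, Fintype.sum_prod_type,
      Finset.sum_comm]
    have : ∀ y : Fin n → Fin 4, ∑ a : Fin 4,
        B (List.ofFn ((Fin.consEquiv (fun _ : Fin (n + 1) => Fin 4)) (a, y))) =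
        2 * (n + 2) * B (List.ofFn y) := by
      intro y
      have h := key' [] (List.ofFn y)
      simp only [List.nil_append, List.length_nil, List.length_ofFn, zero_add,
        Nat.choose_one_right, B_nil, mul_one] at h
      rw [← h]
      refine Finset.sum_congr rfl fun a _ => ?_
      simp [Fin.consEquiv]
    simp only [this]
    rw [← Finset.mul_sum, ih, Nat.factorial_succ (n + 1)]
    ring

/-- sum of `g` over all lifts of a word -/
def sumL : List (Fin 3) → (List (Fin 4) → ℕ) → ℕ
  | [], g => g []
  | a :: w, g => ∑ c : Fin 4, if iota c = a then sumL w (fun l => g (c :: l)) else 0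

theorem sumL_append (u v : List (Fin 3)) (g : List (Fin 4) → ℕ) :
    sumL (u ++ v) g = sumL u (fun x => sumL v (fun y => g (x ++ y))) := by
  induction u generalizing g with
  | nil => simp [sumL]
  | cons a u ih =>
    simp only [List.cons_append, sumL]
    refine Finset.sum_congr rfl fun c _ => ?_
    rw [ih]

theorem sumL_congr (u : List (Fin 3)) (g g' : List (Fin 4) → ℕ)
    (h : ∀ z : List (Fin 4), z.length = u.length → g z = g' z) : sumL u g = sumL u g' := by
  induction u generalizing g g' with
  | nil => simp [sumL, h]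
  | cons a u ih =>
    simp only [sumL]
    refine Finset.sum_congr rfl fun c _ => ?_
    rw [ih (fun l => g (c :: l)) (fun l => g' (c :: l))]
    intro z hz
    exact h _ (by simp [hz])

theorem sumL_mul (u : List (Fin 3)) (g : List (Fin 4) → ℕ) (c : ℕ) :
    sumL u (fun z => c * g z) = c * sumL u g := by
  induction u generalizing g with
  | nil => simp [sumL]
  | cons a u ih =>
    simp only [sumL, Finset.mul_sum]
    refine Finset.sum_congr rfl fun e _ => ?_
    rw [ih (fun l => g (e :: l))]
    split_ifs <;> simp

theorem sumL_sum {β : Type} (s : Finset β) (u : List (Fin 3)) (g : β → List (Fin 4) → ℕ) :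
    sumL u (fun z => ∑ b ∈ s, g b z) = ∑ b ∈ s, sumL u (g b) := by
  induction u generalizing g with
  | nil => simp [sumL]
  | cons a u ih =>
    simp only [sumL]
    rw [Finset.sum_comm]
    refine Finset.sum_congr rfl fun e _ => ?_
    rw [ih (fun b l => g b (e :: l))]
    split_ifs <;> simp

theorem sumL_ofFn (n : ℕ) (w : Fin n → Fin 3) (g : List (Fin 4) → ℕ) :
    ∑ x ∈ Finset.univ.filter (fun x : Fin n → Fin 4 => ∀ j, iota (x j) = w j), g (List.ofFn x) =
      sumL (List.ofFn w) g := by
  induction n generalizing g with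
  | zero => simp [sumL]
  | succ n ih =>
    rw [List.ofFn_succ, sumL, Finset.sum_filter,
      ← (Fin.consEquiv (fun _ : Fin (n + 1) => Fin 4)).sum_comp, Fintype.sum_prod_type]
    refine Finset.sum_congr rfl fun c _ => ?_
    rw [← ih, Finset.sum_filter]
    by_cases hc : iota c = w 0
    · rw [if_pos hc]
      refine Finset.sum_congr rfl fun y _ => ?_
      simp [Fin.consEquiv, Fin.forall_fin_succ, hc]
    · rw [if_neg hc]
      refine Finset.sum_eq_zero fun y _ => ?_
      simp [Fin.consEquiv, Fin.forall_fin_succ, hc]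

def Q (w : List (Fin 3)) : ℕ := sumL w B

theorem Q_key (u v : List (Fin 3)) :
    ∑ a : Fin 3, Q (u ++ a :: v) =
      2 * Nat.choose (u.length + v.length + 2) (u.length + 1) * Q u * Q v := by
  unfold Q
  simp only [sumL_append]
  rw [← sumL_sum, mul_assoc, mul_comm (sumL u B), ← mul_assoc, ← sumL_mul]
  apply sumL_congr
  intro x hx
  simp only [sumL]
  rw [Finset.sum_comm]
  simp only [Finset.sum_ite_eq, Finset.mem_univ, if_true]
  rw [← sumL_sum, mul_assoc, mul_comm (sumL v B), ← mul_assoc, ← sumL_mul]
  apply sumL_congr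
  intro y hy
  rw [key', hx, hy]

def emb (a : Fin 3) : Fin 4 := if a = 0 then 0 else 1

theorem sumL_no2 (w : List (Fin 3)) (hw : (2 : Fin 3) ∉ w) (g : List (Fin 4) → ℕ) :
    sumL w g = g (w.map emb) := by
  induction w generalizing g with
  | nil => simp [sumL]
  | cons a w ih =>
    have ha : a ≠ 2 := fun h => hw (by simp [h])
    have hw' : (2 : Fin 3) ∉ w := fun h => hw (List.mem_cons_of_mem _ h)
    simp only [sumL, ih hw', Fin.sum_univ_four, List.map_cons]
    fin_cases a
    · simp [iota, emb]
    · simp [iota, emb]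
    · simp at ha

/-- normalised probability -/
noncomputable def q (w : List (Fin 3)) : ℝ := (Q w : ℝ) / (total w.length : ℝ)

theorem q_key (u v : List (Fin 3)) : ∑ a : Fin 3, q (u ++ a :: v) = q u * q v := by
  unfold q
  simp only [List.length_append, List.length_cons]
  rw [← Finset.sum_div, ← Nat.cast_sum, Q_key, total_eq, total_eq, total_eq]
  have h := Nat.add_choose_mul_factorial_mul_factorial (v.length + 1) (u.length + 1)
  have h1 : v.length + 1 + (u.length + 1) = u.length + v.length + 2 := by ring
  have h2 : u.length + (v.length + 1) + 1 = u.length + v.length + 2 := by ring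
  rw [h1] at h
  rw [h2, ← h]
  have h3 : ((u.length + v.length + 2).choose (u.length + 1) : ℝ) ≠ 0 := by
    have := Nat.choose_pos (n := u.length + v.length + 2) (k := u.length + 1) (by omega)
    positivity
  push_cast
  field_simp
  ring

theorem q_not_chain (w : List (Fin 3)) (hw : (2 : Fin 3) ∉ w) (hc : ¬ w.IsChain (· ≠ ·)) :
    q w = 0 := by
  unfold q Q
  rw [sumL_no2 w hw, B_not_chain]
  · simp
  · intro h
    apply hc
    rw [List.isChain_map] at h
    exact h.imp fun a b hab he => hab (by rw [he])

theorem q_chain (w : List (Fin 3)) (n : ℕ) (hn : w.length = n + 1) (hw : (2 : Fin 3) ∉ w)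
    (hc : w.IsChain (· ≠ ·)) : q w = 1 / (2 * ((n + 2).factorial : ℝ)) := by
  unfold q Q
  rw [sumL_no2 w hw, two_letter n, hn, total_eq]
  · push_cast
    field_simp
    ring
  · simpa using hn
  · rw [List.isChain_map]
    refine List.IsChain.imp_of_mem_imp ?_ hc
    intro a b ha hb hab
    have ha2 : a ≠ 2 := fun h => hw (h ▸ ha)
    have hb2 : b ≠ 2 := fun h => hw (h ▸ hb)
    fin_cases a <;> fin_cases b <;> simp_all [emb]
  · intro c hc
    obtain ⟨a, _, rfl⟩ := List.mem_map.mp hc
    unfold emb
    split_ifs <;> simp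

theorem q_nil : q [] = 1 := by
  simp [q, Q, sumL, B_nil, total_eq]

theorem unique (p : ℤ → List (Fin 3) → ℝ)
    (h1 : ∀ i u v, ∑ a : Fin 3, p i (u ++ a :: v) = p i u * p (i + u.length + 1) v)
    (h2 : ∀ i w, (2 : Fin 3) ∉ w → p i w = q w) : ∀ i w, p i w = q w := by
  suffices H : ∀ N : ℕ, ∀ i w, List.count (2 : Fin 3) w = N → p i w = q w from
    fun i w => H _ i w rfl
  intro N
  induction N using Nat.strong_induction_on with
  | _ N ih =>
  intro i w hN
  by_cases hw : (2 : Fin 3) ∈ w
  swap
  · exact h2 i w hw
  obtain ⟨u, v, rfl⟩ := List.append_of_mem hw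
  simp only [List.count_append, List.count_cons_self] at hN
  have e1 := h1 i u v
  have e2 := q_key u v
  rw [Fin.sum_univ_three] at e1 e2
  rw [ih _ (by omega) i u rfl, ih _ (by omega) _ v rfl,
    ih _ (by simp [List.count_append]; omega) i (u ++ 0 :: v) rfl,
    ih _ (by simp [List.count_append]; omega) i (u ++ 1 :: v) rfl] at e1
  linarith

end Pool.Agent.H444Z.BF
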