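import Mathlib

set_option autoImplicit false

namespace Pool.Agent.H444Z.BF

open MeasureTheory ProbabilityTheory Set

/-- restrictions of an i.i.d. family to disjoint index sets are independent -/
theorem indepFun_restrict {ι E : Type} [MeasurableSpace E] (ν : Measure E)
    [IsProbabilityMeasure ν] {S T : Set ι} (h : Disjoint S T) :
    IndepFun (fun (ω : ι → E) (i : S) => ω i) (fun (ω : ι → E) (i : T) => ω i)
      (Measure.infinitePi (fun _ : ι => ν)) := by
  have h0 : iIndepFun (fun (i : ι) (ω : ι → E) => ω i) (Measure.infinitePi (fun _ : ι => ν)) :=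
    iIndepFun_infinitePi (P := fun _ : ι => ν) (X := fun _ x => x) (by fun_prop)
  rw [iIndepFun_iff_iIndep] at h0
  have h1 := indep_iSup_of_disjoint (fun i => (measurable_pi_apply i).comap_le) h0 h
  rw [IndepFun_iff_Indep]
  have key : ∀ U : Set ι, MeasurableSpace.comap (fun (ω : ι → E) (i : U) => ω i)
      MeasurableSpace.pi = ⨆ i ∈ U, MeasurableSpace.comap (fun ω : ι → E => ω i)
        inferInstance := by
    intro U
    unfold MeasurableSpace.pi
    rw [MeasurableSpace.comap_iSup, iSup_subtype']
    refine iSup_congr fun i => ?_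
    rw [MeasurableSpace.comap_comp]
    rfl
  rw [key, key]
  exact h1

def DepOn {ι E : Type} (A : Set (ι → E)) (S : Set ι) : Prop :=
  ∀ ω ω' : ι → E, (∀ i ∈ S, ω i = ω' i) → ω ∈ A → ω' ∈ A

theorem indep_sets {ι E : Type} [MeasurableSpace E] [Inhabited E] (ν : Measure E)
    [IsProbabilityMeasure ν] {S T : Set ι} (h : Disjoint S T) {A B : Set (ι → E)}
    (hA : MeasurableSet A) (hB : MeasurableSet B) (dA : DepOn A S) (dB : DepOn B T) :
    (Measure.infinitePi (fun _ : ι => ν)) (A ∩ B) =
      (Measure.infinitePi (fun _ : ι => ν)) A * (Measure.infinitePi (fun _ : ι => ν)) B := by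
  classical
  have key : ∀ (U : Set ι) (C : Set (ι → E)), MeasurableSet C → DepOn C U →
      ∃ C' : Set (U → E), MeasurableSet C' ∧ C = (fun (ω : ι → E) (i : U) => ω i) ⁻¹' C' := by
    intro U C hC dC
    let ext : (U → E) → (ι → E) := fun y i => if hi : i ∈ U then y ⟨i, hi⟩ else default
    have hext : Measurable ext := by
      refine measurable_pi_lambda _ fun i => ?_
      by_cases hi : i ∈ U
      · simp only [ext, dif_pos hi]; exact measurable_pi_apply _
      · simp only [ext, dif_neg hi]; exact measurable_const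
    refine ⟨ext ⁻¹' C, hext hC, ?_⟩
    ext ω
    constructor
    · intro hω
      exact dC ω _ (fun i hi => by simp [ext, hi]) hω
    · intro hω
      exact dC _ ω (fun i hi => by simp [ext, hi]) hω
  obtain ⟨A', hA', rfl⟩ := key S A hA dA
  obtain ⟨B', hB', rfl⟩ := key T B hB dB
  exact (indepFun_restrict ν h).measure_inter_preimage_eq_mul A' B' hA' hB'

theorem map_head_tail {E : Type} [MeasurableSpace E] (ν : Measure E) [IsProbabilityMeasure ν] :
    (Measure.infinitePi (fun _ : ℕ => ν)).map (fun y : ℕ → E => (y 0, fun t : ℕ => y (t + 1))) =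
      ν.prod (Measure.infinitePi (fun _ : ℕ => ν)) := by
  have hd : Disjoint ({0} : Set ℕ) {t | t ≠ 0} := by
    rw [Set.disjoint_left]
    intro a ha hb
    exact hb ha
  have m1 : Measurable (fun y : ({0} : Set ℕ) → E => y ⟨0, Set.mem_singleton 0⟩) := by fun_prop
  have m2 : Measurable
      (fun y : {t : ℕ | t ≠ 0} → E => fun t : ℕ => y ⟨t + 1, Nat.succ_ne_zero t⟩) := by fun_prop
  have h := (indepFun_restrict ν hd).comp m1 m2
  have h2 : IndepFun (fun y : ℕ → E => y 0) (fun (y : ℕ → E) (t : ℕ) => y (t + 1))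
      (Measure.infinitePi (fun _ : ℕ => ν)) := h
  rw [h2.map_prod_eq_prod_map_map (Measurable.aemeasurable (by fun_prop))
      (Measurable.aemeasurable (by fun_prop)),
    Measure.infinitePi_map_eval,
    Measure.map_infinitePi_infinitePi_of_inj (P := fun _ : ℕ => ν) (f := fun t : ℕ => t + 1)
      (fun a b hab => by simpa using hab)]

noncomputable def unif : Measure ℝ := volume.restrict (Ioc (0 : ℝ) 1)

instance : IsProbabilityMeasure unif := ⟨by simp [unif]⟩

noncomputable def lam : Measure (ℕ → ℝ) := Measure.infinitePi (fun _ : ℕ => unif)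

instance : IsProbabilityMeasure lam := by unfold lam; infer_instance

def Asc : ℕ → ℝ → (ℕ → ℝ) → Prop
  | 0, _, _ => True
  | n + 1, x, y => x < y 0 ∧ Asc n (y 0) (fun t => y (t + 1))

def Val : ℕ → ℝ → (ℕ → ℝ) → Prop
  | 0, _, _ => True
  | n + 1, x, y => (x < y 0 ∧ Asc n (y 0) (fun t => y (t + 1))) ∨
      (¬ x < y 0 ∧ Val n (y 0) (fun t => y (t + 1)))

theorem meas_ht : Measurable (fun p : ℝ × (ℕ → ℝ) => (p.2 0, fun t : ℕ => p.2 (t + 1))) := by
  fun_prop

theorem meas_lt : MeasurableSet {p : ℝ × (ℕ → ℝ) | p.1 < p.2 0} :=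
  measurableSet_lt (by fun_prop) (by fun_prop)

theorem meas_Asc (n : ℕ) : MeasurableSet {p : ℝ × (ℕ → ℝ) | Asc n p.1 p.2} := by
  induction n with
  | zero => simp [Asc]
  | succ n ih => exact meas_lt.inter (meas_ht ih)

theorem meas_Val (n : ℕ) : MeasurableSet {p : ℝ × (ℕ → ℝ) | Val n p.1 p.2} := by
  induction n with
  | zero => simp [Val]
  | succ n ih =>
    exact (meas_lt.inter (meas_ht (meas_Asc n))).union (meas_lt.compl.inter (meas_ht ih))

theorem lam_step (K : Set (ℝ × (ℕ → ℝ))) (hK : MeasurableSet K) (h : ℝ → ℝ)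
    (hi : IntegrableOn h (Ioc (0 : ℝ) 1)) (h0 : ∀ x ∈ Ioc (0 : ℝ) 1, 0 ≤ h x)
    (hh : ∀ x ∈ Ioc (0 : ℝ) 1, lam {z | (x, z) ∈ K} = ENNReal.ofReal (h x)) :
    lam {y | (y 0, fun t : ℕ => y (t + 1)) ∈ K} = ENNReal.ofReal (∫ x in Ioc (0 : ℝ) 1, h x) := by
  have h1 : lam {y | (y 0, fun t : ℕ => y (t + 1)) ∈ K} = (unif.prod lam) K := by
    unfold lam
    rw [← map_head_tail unif, Measure.map_apply (by fun_prop) hK]
    rfl
  rw [h1, Measure.prod_apply hK, ofReal_integral_eq_lintegral_ofReal hi
    ((ae_restrict_iff' measurableSet_Ioc).mpr (Filter.Eventually.of_forall h0))]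
  unfold unif
  exact setLIntegral_congr_fun measurableSet_Ioc (fun x hx => hh x hx)

theorem int_split (c : ℝ) (hc : c ∈ Ioc (0 : ℝ) 1) (f g : ℝ → ℝ) (hf : Continuous f)
    (hg : Continuous g) :
    IntegrableOn (fun x => if c < x then f x else g x) (Ioc (0 : ℝ) 1) ∧
    ∫ x in Ioc (0 : ℝ) 1, (if c < x then f x else g x) = (∫ x in (0 : ℝ)..c, g x) +
      ∫ x in c..1, f x := by
  have e : Ioc (0 : ℝ) 1 = Ioc 0 c ∪ Ioc c 1 := (Ioc_union_Ioc_eq_Ioc hc.1.le hc.2).symm
  have i1 : IntegrableOn (fun x => if c < x then f x else g x) (Ioc (0 : ℝ) c) := by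
    refine (hg.integrableOn_Ioc (a := 0) (b := c)).congr_fun ?_ measurableSet_Ioc
    intro x hx
    simp [not_lt.mpr hx.2]
  have i2 : IntegrableOn (fun x => if c < x then f x else g x) (Ioc c 1) := by
    refine (hf.integrableOn_Ioc (a := c) (b := 1)).congr_fun ?_ measurableSet_Ioc
    intro x hx
    simp [hx.1]
  refine ⟨e ▸ i1.union i2, ?_⟩
  rw [e, setIntegral_union (Ioc_disjoint_Ioc_of_le le_rfl) measurableSet_Ioc i1 i2,
    intervalIntegral.integral_of_le hc.1.le, intervalIntegral.integral_of_le hc.2]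
  congr 1
  · refine setIntegral_congr_fun measurableSet_Ioc fun x hx => ?_
    simp [not_lt.mpr hx.2]
  · refine setIntegral_congr_fun measurableSet_Ioc fun x hx => ?_
    simp [hx.1]

theorem int_one_sub (n : ℕ) (a b : ℝ) :
    ∫ x in a..b, (1 - x) ^ n = ((1 - a) ^ (n + 1) - (1 - b) ^ (n + 1)) / (n + 1) := by
  rw [intervalIntegral.integral_comp_sub_left (fun x => x ^ n) 1, integral_pow]

theorem int_one_add (n : ℕ) (a b : ℝ) :
    ∫ x in a..b, (1 + x) ^ n = ((1 + b) ^ (n + 1) - (1 + a) ^ (n + 1)) / (n + 1) := by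
  rw [intervalIntegral.integral_comp_add_left (fun x => x ^ n) 1, integral_pow]

theorem lam_Asc (n : ℕ) : ∀ c ∈ Ioc (0 : ℝ) 1,
    lam {z | Asc n c z} = ENNReal.ofReal ((1 - c) ^ n / n.factorial) := by
  induction n with
  | zero => intro c _; simp [Asc]
  | succ n ih =>
    intro c hc
    obtain ⟨i1, i2⟩ := int_split c hc (fun x => (1 - x) ^ n / n.factorial) (fun _ => 0)
      (by fun_prop) (by fun_prop)
    have := lam_step {p | c < p.1 ∧ Asc n p.1 p.2}
      ((measurableSet_lt measurable_const measurable_fst).inter (meas_Asc n)) _ i1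
      (fun x hx => by
        have : 0 ≤ 1 - x := by linarith [hx.2]
        split_ifs
        · positivity
        · exact le_rfl)
      (fun x hx => by
        by_cases h : c < x
        · simp only [h, mem_ofPred_eq, true_and, if_true]
          exact ih x hx
        · simp [h])
    rw [i2] at this
    refine this.trans ?_
    congr 1
    rw [intervalIntegral.integral_div, int_one_sub, Nat.factorial_succ]
    simp
    field_simp

theorem lam_Val (n : ℕ) : ∀ c ∈ Ioc (0 : ℝ) 1,
    lam {z | Val n c z} =
      ENNReal.ofReal (((1 + c) ^ n + (1 - c) ^ n) / (2 * n.factorial)) := by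
  induction n with
  | zero => intro c _; norm_num [Val]
  | succ n ih =>
    intro c hc
    obtain ⟨i1, i2⟩ := int_split c hc (fun x => (1 - x) ^ n / n.factorial)
      (fun x => ((1 + x) ^ n + (1 - x) ^ n) / (2 * n.factorial))
      (by fun_prop) (by fun_prop)
    have hm : MeasurableSet {p : ℝ × (ℕ → ℝ) | c < p.1} :=
      measurableSet_lt measurable_const measurable_fst
    have := lam_step {p | (c < p.1 ∧ Asc n p.1 p.2) ∨ (¬ c < p.1 ∧ Val n p.1 p.2)}
      ((hm.inter (meas_Asc n)).union (hm.compl.inter (meas_Val n))) _ i1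
      (fun x hx => by
        have : 0 ≤ 1 - x := by linarith [hx.2]
        have : 0 ≤ 1 + x := by linarith [hx.1]
        split_ifs
        · positivity
        · positivity)
      (fun x hx => by
        by_cases h : c < x
        · simp only [h, mem_ofPred_eq, true_and, if_true, not_true, false_and, or_false]
          exact lam_Asc n x hx
        · simp only [h, mem_ofPred_eq, true_and, if_false, not_false_iff, false_and, false_or]
          exact ih x hx)
    rw [i2] at this
    refine this.trans ?_
    congr 1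
    rw [intervalIntegral.integral_div, intervalIntegral.integral_div,
      intervalIntegral.integral_add (by apply Continuous.intervalIntegrable; fun_prop)
        (by apply Continuous.intervalIntegrable; fun_prop), int_one_sub, int_one_sub, int_one_add,
      Nat.factorial_succ]
    simp
    field_simp
    ring

theorem lam_NP (n : ℕ) : lam {y | Val n (y 0) (fun t => y (t + 1))} =
    ENNReal.ofReal (2 ^ n / (n + 1).factorial) := by
  have := lam_step {p | Val n p.1 p.2} (meas_Val n)
    (fun x => ((1 + x) ^ n + (1 - x) ^ n) / (2 * n.factorial))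
    (Continuous.integrableOn_Ioc (by fun_prop))
    (fun x hx => by
      have : 0 ≤ 1 - x := by linarith [hx.2]
      have : 0 ≤ 1 + x := by linarith [hx.1]
      positivity)
    (fun x hx => lam_Val n x hx)
  refine this.trans ?_
  congr 1
  rw [← intervalIntegral.integral_of_le zero_le_one, intervalIntegral.integral_div,
    intervalIntegral.integral_add (by apply Continuous.intervalIntegrable; fun_prop)
      (by apply Continuous.intervalIntegrable; fun_prop), int_one_sub, int_one_add,
    Nat.factorial_succ]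
  simp
  field_simp
  ring

end Pool.Agent.H444Z.BF
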