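import Pool.Agent.H444Z.BF.Lift
import Pool.Agent.H444Z.BF.Prod

set_option autoImplicit false

namespace Pool.Agent.H444Z.BF

open MeasureTheory ProbabilityTheory Set

abbrev E : Type := ℝ × Bool

noncomputable def coin : Measure Bool := uniformOn (Set.univ : Set Bool)

instance : IsProbabilityMeasure coin := by
  unfold coin
  infer_instance

noncomputable def nu : Measure E := unif.prod coin

instance : IsProbabilityMeasure nu := by unfold nu; infer_instance

noncomputable def mu : Measure (ℤ → E) := Measure.infinitePi (fun _ : ℤ => nu)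

instance : IsProbabilityMeasure mu := by unfold mu; infer_instance

def col (b : Bool) : Fin 3 := if b then 0 else 1

open Classical in
noncomputable def g (a b c : E) : Fin 3 :=
  if (if a.1 < b.1 ∧ ¬ b.1 < c.1 then b.2 = c.2 else a.2 ≠ b.2) then col a.2 else 2

def g' (a b : E) : Fin 3 := if a.2 ≠ b.2 then col a.2 else 2

theorem meas_g : Measurable (fun p : E × E × E => g p.1 p.2.1 p.2.2) := by
  unfold g
  have h1 : MeasurableSet {p : E × E × E | p.1.1 < p.2.1.1} :=
    measurableSet_lt (by fun_prop) (by fun_prop)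
  have h2 : MeasurableSet {p : E × E × E | p.2.1.1 < p.2.2.1} :=
    measurableSet_lt (by fun_prop) (by fun_prop)
  have h3 : MeasurableSet {p : E × E × E | p.2.1.2 = p.2.2.2} :=
    measurableSet_eq_fun (by fun_prop) (by fun_prop)
  have h4 : MeasurableSet {p : E × E × E | p.1.2 = p.2.1.2} :=
    measurableSet_eq_fun (by fun_prop) (by fun_prop)
  refine Measurable.ite ?_ ((measurable_of_countable col).comp (by fun_prop)) measurable_const
  have : {p : E × E × E | if p.1.1 < p.2.1.1 ∧ ¬ p.2.1.1 < p.2.2.1 then p.2.1.2 = p.2.2.2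
      else p.1.2 ≠ p.2.1.2} = (({p : E × E × E | p.1.1 < p.2.1.1} ∩
        {p : E × E × E | p.2.1.1 < p.2.2.1}ᶜ) ∩ {p : E × E × E | p.2.1.2 = p.2.2.2}) ∪
      (({p : E × E × E | p.1.1 < p.2.1.1} ∩
        {p : E × E × E | p.2.1.1 < p.2.2.1}ᶜ)ᶜ ∩ {p : E × E × E | p.1.2 = p.2.1.2}ᶜ) := by
    ext p
    simp only [mem_ofPred_eq, mem_union, mem_inter_iff, mem_compl_iff]
    split_ifs with h <;> tauto
  rw [this]
  exact ((h1.inter h2.compl).inter h3).union ((h1.inter h2.compl).compl.inter h4.compl)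

theorem meas_g' : Measurable (fun p : E × E => g' p.1 p.2) := by
  unfold g'
  have h4 : MeasurableSet {p : E × E | p.1.2 = p.2.2} :=
    measurableSet_eq_fun (by fun_prop) (by fun_prop)
  exact Measurable.ite h4.compl ((measurable_of_countable col).comp (by fun_prop))
    measurable_const

noncomputable def W (i : ℤ) (ω : ℤ → E) : Fin 3 := g (ω i) (ω (i + 1)) (ω (i + 2))
def W' (i : ℤ) (ω : ℤ → E) : Fin 3 := g' (ω i) (ω (i + 1))

theorem meas_W (i : ℤ) : Measurable (W i) :=
  meas_g.comp (f := fun ω : ℤ → E => (ω i, ω (i + 1), ω (i + 2))) (by fun_prop)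

theorem meas_W' (i : ℤ) : Measurable (W' i) :=
  meas_g'.comp (f := fun ω : ℤ → E => (ω i, ω (i + 1))) (by fun_prop)

def C : ℤ → List (Fin 3) → Set (ℤ → E)
  | _, [] => univ
  | i, a :: w => {ω | W i ω = a} ∩ C (i + 1) w

theorem meas_C (w : List (Fin 3)) : ∀ i, MeasurableSet (C i w) := by
  induction w with
  | nil => intro i; simp [C]
  | cons a w ih => intro i; exact (meas_W i (measurableSet_singleton a)).inter (ih _)

theorem C_append (u v : List (Fin 3)) : ∀ i, C i (u ++ v) = C i u ∩ C (i + u.length) v := by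
  induction u with
  | nil => intro i; simp [C]
  | cons a u ih =>
    intro i
    simp only [List.cons_append, C, ih, List.length_cons, inter_assoc]
    congr 3
    push_cast
    ring

theorem C_congr (w : List (Fin 3)) (ω ω' : ℤ → E) : ∀ i : ℤ,
    (∀ t : ℤ, i ≤ t → t < i + w.length → W t ω = W t ω') → ω ∈ C i w → ω' ∈ C i w := by
  induction w with
  | nil => intro i _ _; simp [C]
  | cons a w ih =>
    intro i h hω
    simp only [List.length_cons] at h
    refine ⟨?_, ih _ (fun t h1 h2 => h t (by omega) (by push_cast; omega)) hω.2⟩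
    have := h i le_rfl (by push_cast; omega)
    have h2 : W i ω = a := hω.1
    simp only [mem_ofPred_eq]
    rw [← this, h2]

def flip (k : ℤ) (ω : ℤ → E) : ℤ → E := fun t => if t = k then ((ω t).1, !(ω t).2) else ω t

theorem coin_not : coin.map (fun b => !b) = coin := by
  refine Measure.ext_of_singleton fun b => ?_
  rw [Measure.map_apply (measurable_of_countable _) (measurableSet_singleton _)]
  have : (fun b : Bool => !b) ⁻¹' {b} = {!b} := by
    ext c; cases b <;> cases c <;> simp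
  rw [this]
  unfold coin
  rw [uniformOn_univ, uniformOn_univ]
  simp

theorem flip_mp (k : ℤ) : MeasurePreserving (flip k) mu mu := by
  have hm : ∀ t : ℤ, Measurable (fun e : E => if t = k then (e.1, !e.2) else e) := by
    intro t
    split_ifs
    · exact measurable_fst.prodMk ((measurable_of_countable (fun b : Bool => !b)).comp measurable_snd)
    · exact measurable_id
  refine ⟨measurable_pi_lambda _ fun t => (hm t).comp (measurable_pi_apply t), ?_⟩
  unfold mu
  have := Measure.infinitePi_map_pi (fun _ : ℤ => nu) hm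
  refine this.trans ?_
  congr 1
  funext t
  split_ifs
  · unfold nu
    have h := Measure.map_prod_map unif coin measurable_id
      (measurable_of_countable (fun b : Bool => !b))
    rw [Measure.map_id, coin_not] at h
    exact h.symm
  · exact Measure.map_id

theorem flip_fst (k t : ℤ) (ω : ℤ → E) : (flip k ω t).1 = (ω t).1 := by
  unfold flip; split_ifs <;> rfl

theorem flip_ne {k t : ℤ} (h : t ≠ k) (ω : ℤ → E) : flip k ω t = ω t := by
  unfold flip; rw [if_neg h]

theorem flip_self (k : ℤ) (ω : ℤ → E) : (flip k ω k).2 = !(ω k).2 := by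
  unfold flip; rw [if_pos rfl]

theorem flip_flip (k : ℤ) (ω : ℤ → E) : flip k (flip k ω) = ω := by
  funext t
  unfold flip
  split_ifs <;> simp

theorem flip_lemma (i : ℤ) (u : List (Fin 3)) (a : Fin 3) (G : Set (ℤ → E))
    (hG : MeasurableSet G) (hGf : ∀ ω, ω ∈ G → flip (i + u.length + 1) ω ∈ G) :
    mu (C i u ∩ {ω | W (i + u.length) ω = a} ∩ G) =
      mu (C i u ∩ {ω | W' (i + u.length) ω = a} ∩ G) := by
  set j : ℤ := i + u.length with hj
  let T : Set (ℤ → E) := {ω | (ω j).1 < (ω (j + 1)).1 ∧ ¬ (ω (j + 1)).1 < (ω (j + 2)).1 ∧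
    (ω j).2 = (ω (j + 2)).2}
  have hT : MeasurableSet T := by
    have h1 : MeasurableSet {ω : ℤ → E | (ω j).1 < (ω (j + 1)).1} :=
      measurableSet_lt (by fun_prop) (by fun_prop)
    have h2 : MeasurableSet {ω : ℤ → E | (ω (j + 1)).1 < (ω (j + 2)).1} :=
      measurableSet_lt (by fun_prop) (by fun_prop)
    have h3 : MeasurableSet {ω : ℤ → E | (ω j).2 = (ω (j + 2)).2} :=
      measurableSet_eq_fun (by fun_prop) (by fun_prop)
    exact h1.inter (h2.compl.inter h3)
  have hA' : MeasurableSet (C i u ∩ {ω | W' j ω = a} ∩ G) :=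
    ((meas_C u i).inter (meas_W' j (measurableSet_singleton a))).inter hG
  have off : ∀ ω, ω ∉ T → W j ω = W' j ω := by
    intro ω hω
    unfold W W' g g'
    by_cases hp : (ω j).1 < (ω (j + 1)).1 ∧ ¬ (ω (j + 1)).1 < (ω (j + 2)).1
    · have h3 : (ω j).2 ≠ (ω (j + 2)).2 := fun h => hω ⟨hp.1, hp.2, h⟩
      simp only [if_pos hp]
      revert h3
      cases (ω j).2 <;> cases (ω (j + 1)).2 <;> cases (ω (j + 2)).2 <;> simp
    · simp only [if_neg hp]
  have hTf : ∀ ω, ω ∈ T → flip (j + 1) ω ∈ T := by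
    intro ω hω
    refine ⟨by simpa only [flip_fst] using hω.1, by simpa only [flip_fst] using hω.2.1, ?_⟩
    rw [flip_ne (by omega), flip_ne (by omega)]
    exact hω.2.2
  have on : ∀ ω, ω ∈ T → W j ω = W' j (flip (j + 1) ω) := by
    intro ω hω
    unfold W W' g g'
    simp only [if_pos (show (ω j).1 < (ω (j + 1)).1 ∧ ¬ (ω (j + 1)).1 < (ω (j + 2)).1 from
      ⟨hω.1, hω.2.1⟩), flip_self, flip_ne (show j ≠ j + 1 by omega)]
    have h3 := hω.2.2
    revert h3
    cases (ω j).2 <;> cases (ω (j + 1)).2 <;> cases (ω (j + 2)).2 <;> simp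
  have hCf : ∀ ω, ω ∈ T → ω ∈ C i u → flip (j + 1) ω ∈ C i u := by
    intro ω hω
    apply C_congr
    intro t _ h2
    unfold W
    rw [flip_ne (by omega), flip_ne (by omega)]
    by_cases ht : t + 2 = j + 1
    · have ht1 : t + 1 = j := by omega
      have h1 : (ω (t + 1)).1 < (ω (t + 2)).1 := by rw [ht1, ht]; exact hω.1
      unfold g
      simp only [flip_fst, h1, not_true, and_false, if_false]
    · rw [flip_ne ht]
  have e1 : (C i u ∩ {ω | W j ω = a} ∩ G) \ T = (C i u ∩ {ω | W' j ω = a} ∩ G) \ T := by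
    ext ω
    simp only [mem_diff, mem_inter_iff, mem_ofPred_eq]
    constructor
    · rintro ⟨⟨⟨h1, h2⟩, h3⟩, h4⟩
      exact ⟨⟨⟨h1, off ω h4 ▸ h2⟩, h3⟩, h4⟩
    · rintro ⟨⟨⟨h1, h2⟩, h3⟩, h4⟩
      exact ⟨⟨⟨h1, (off ω h4).trans h2⟩, h3⟩, h4⟩
  have e2 : (C i u ∩ {ω | W j ω = a} ∩ G) ∩ T =
      flip (j + 1) ⁻¹' ((C i u ∩ {ω | W' j ω = a} ∩ G) ∩ T) := by
    ext ω
    simp only [mem_preimage, mem_inter_iff, mem_ofPred_eq]
    constructor
    · rintro ⟨⟨⟨h1, h2⟩, h3⟩, h4⟩
      exact ⟨⟨⟨hCf ω h4 h1, on ω h4 ▸ h2⟩, hGf ω h3⟩, hTf ω h4⟩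
    · rintro ⟨⟨⟨h1, h2⟩, h3⟩, h4⟩
      have h5 := hTf _ h4
      have h6 := hCf _ h4 h1
      have h7 := hGf _ h3
      rw [flip_flip] at h5 h6 h7
      exact ⟨⟨⟨h6, (on ω h5).trans h2⟩, h7⟩, h5⟩
  rw [← measure_inter_add_diff _ hT, ← measure_inter_add_diff (C i u ∩ {ω | W' j ω = a} ∩ G) hT,
    e1, e2, (flip_mp (j + 1)).measure_preimage (hA'.inter hT).nullMeasurableSet]

theorem dep_C (i : ℤ) (w : List (Fin 3)) (S : Set ℤ)
    (hS : ∀ t, i ≤ t → t < i + w.length + 2 → t ∈ S) : DepOn (C i w) S := by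
  intro ω ω' h
  apply C_congr
  intro t h1 h2
  unfold W
  rw [h t (hS t h1 (by omega)), h (t + 1) (hS _ (by omega) (by omega)),
    h (t + 2) (hS _ (by omega) (by omega))]

theorem one_dep (i : ℤ) (u v : List (Fin 3)) :
    mu (C i u ∩ C (i + u.length + 1) v) = mu (C i u) * mu (C (i + u.length + 1) v) := by
  rcases List.eq_nil_or_concat u with rfl | ⟨u', a, rfl⟩
  · simp [C]
  rw [List.concat_eq_append]
  have e : C i (u' ++ [a]) = C i u' ∩ {ω | W (i + u'.length) ω = a} := by
    rw [C_append]; simp [C]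
  have el : i + ((u' ++ [a]).length : ℤ) + 1 = i + u'.length + 2 := by
    simp only [List.length_append, List.length_singleton]; push_cast; ring
  rw [e, el]
  have h1 := flip_lemma i u' a (C (i + u'.length + 2) v) (meas_C _ _) (by
    intro ω
    apply dep_C _ _ {t | i + u'.length + 2 ≤ t} (fun t h _ => h)
    intro t ht
    rw [flip_ne]
    simp only [mem_ofPred_eq] at ht
    omega)
  have h2 := flip_lemma i u' a univ MeasurableSet.univ (fun _ _ => mem_univ _)
  rw [inter_univ, inter_univ] at h2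
  rw [h1, h2]
  refine indep_sets nu (S := {t | t ≤ i + u'.length + 1}) (T := {t | i + u'.length + 2 ≤ t})
    ?_ ((meas_C _ _).inter (meas_W' _ (measurableSet_singleton a))) (meas_C _ _) ?_
    (dep_C _ _ _ (fun t h _ => h))
  · rw [Set.disjoint_left]
    intro t h1 h2
    simp only [mem_ofPred_eq] at h1 h2
    omega
  · intro ω ω' h hω
    refine ⟨dep_C i u' _ (fun t _ h => by simp only [mem_ofPred_eq]; omega) ω ω' h hω.1, ?_⟩
    have h3 : W' (i + u'.length) ω = a := hω.2
    simp only [mem_ofPred_eq]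
    unfold W' at h3 ⊢
    rw [← h _ (by simp), ← h _ (by simp)]
    exact h3

theorem sum_C (i : ℤ) (u v : List (Fin 3)) :
    ∑ a : Fin 3, mu.real (C i (u ++ a :: v)) =
      mu.real (C i u) * mu.real (C (i + u.length + 1) v) := by
  have h1 : mu.real (C i u) * mu.real (C (i + u.length + 1) v) =
      mu.real (C i u ∩ C (i + u.length + 1) v) := by
    simp only [Measure.real, one_dep, ENNReal.toReal_mul]
  rw [h1, ← measureReal_biUnion_finset]
  · congr 1
    ext ω
    simp only [C_append, C, Finset.mem_univ, iUnion_true, mem_iUnion, mem_inter_iff,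
      mem_ofPred_eq]
    constructor
    · rintro ⟨a, h1, _, h3⟩
      exact ⟨h1, h3⟩
    · rintro ⟨h1, h3⟩
      exact ⟨_, h1, rfl, h3⟩
  · intro a _ b _ hab
    simp only [Function.onFun, C_append, C]
    rw [Set.disjoint_left]
    rintro ω ⟨_, h1, _⟩ ⟨_, h2, _⟩
    exact hab (Eq.trans (Eq.symm h1) h2)
  · intro a _
    exact meas_C _ _

theorem W_ne (t : ℤ) (ω : ℤ → E) (h : W t ω ≠ 2) : W t ω ≠ W (t + 1) ω := by
  unfold W g at *
  have e : t + 1 + 1 = t + 2 := by ring
  rw [e]
  by_cases h1 : (ω t).1 < (ω (t + 1)).1 <;> by_cases h2 : (ω (t + 1)).1 < (ω (t + 2)).1 <;>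
    by_cases h3 : (ω (t + 2)).1 < (ω (t + 1 + 2)).1 <;> revert h <;>
    cases (ω t).2 <;> cases (ω (t + 1)).2 <;> cases (ω (t + 2)).2 <;>
    cases (ω (t + 1 + 2)).2 <;> simp [h1, h2, h3, col]

theorem C_empty (w : List (Fin 3)) : ∀ i, (2 : Fin 3) ∉ w → ¬ w.IsChain (· ≠ ·) →
    C i w = ∅ := by
  induction w with
  | nil => intro i _ h; exact absurd List.isChain_nil h
  | cons a w ih =>
    intro i h2 hc
    rcases w with _ | ⟨b, w⟩
    · exact absurd (List.isChain_singleton a) hc
    rw [List.isChain_cons_cons, not_and_or] at hc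
    rcases hc with hc | hc
    · push Not at hc
      subst hc
      ext ω
      simp only [C, mem_inter_iff, mem_ofPred_eq, mem_empty_iff_false, iff_false]
      rintro ⟨h3, h4, _⟩
      refine W_ne i ω ?_ (h3.trans h4.symm)
      rw [h3]
      rintro rfl
      exact h2 (by simp)
    · rw [C, ih (i + 1) (fun h => h2 (List.mem_cons_of_mem _ h)) hc, inter_empty]

def altW : Bool → ℕ → List (Fin 3)
  | _, 0 => []
  | b, n + 1 => col b :: altW (!b) n

theorem altW_length (n : ℕ) : ∀ b, (altW b n).length = n := by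
  induction n with
  | zero => intro b; rfl
  | succ n ih => intro b; simp [altW, ih]

theorem eq_altW (w : List (Fin 3)) : ∀ b : Bool, (2 : Fin 3) ∉ w →
    (col b :: w).IsChain (· ≠ ·) → w = altW (!b) w.length := by
  induction w with
  | nil => intros; rfl
  | cons a w ih =>
    intro b h2 hc
    rw [List.isChain_cons_cons] at hc
    have ha : a ≠ 2 := fun h => h2 (by simp [h])
    have h3 : a = col (!b) := by
      have := hc.1
      revert this ha
      cases b <;> fin_cases a <;> simp [col]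
    subst h3
    rw [List.length_cons, altW, ← ih (!b) (fun h => h2 (List.mem_cons_of_mem _ h)) hc.2]

def Alt : ℤ → ℕ → Bool → Set (ℤ → E)
  | _, 0, _ => univ
  | i, n + 1, b => {ω | (ω i).2 = b} ∩ Alt (i + 1) n (!b)

def NP (i : ℤ) (n : ℕ) : Set (ℤ → E) := {ω | Val n (ω i).1 (fun t : ℕ => (ω (i + 1 + t)).1)}

theorem NP_step (i : ℤ) (n : ℕ) (ω : ℤ → E) : ω ∈ NP i (n + 2) ↔
    ¬ ((ω i).1 < (ω (i + 1)).1 ∧ ¬ (ω (i + 1)).1 < (ω (i + 2)).1) ∧ ω ∈ NP (i + 1) (n + 1) := by
  have e1 : (fun t : ℕ => (ω (i + 1 + ((t + 1 : ℕ) : ℤ))).1) =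
      fun t : ℕ => (ω (i + 1 + 1 + t)).1 := by
    funext t; congr 2; push_cast; ring
  have e2 : i + 1 + 1 = i + 2 := by ring
  simp only [NP, mem_ofPred_eq]
  rw [Val]
  simp only [e1, Nat.cast_zero, add_zero]
  rw [Asc, Val]
  simp only [Nat.cast_zero, add_zero, e2]
  tauto

theorem D_eq (n : ℕ) : ∀ (i : ℤ) (b : Bool) (u : List (Fin 3)) (a : Fin 3),
    u ++ [a] = altW b (n + 1) →
    C i u ∩ {ω | W' (i + u.length) ω = a} = NP i (n + 1) ∩ Alt i (n + 2) b := by
  induction n with
  | zero =>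
    intro i b u a h
    have hu : u = [] := by
      have := congrArg List.length h
      simpa [altW] using this
    subst hu
    have ha : a = col b := by simpa [altW] using h
    subst ha
    ext ω
    simp only [C, W', g', NP, Val, Asc, Alt, List.length_nil, Nat.cast_zero, add_zero,
      mem_inter_iff, mem_univ, mem_ofPred_eq, true_and, and_true]
    cases b <;> cases (ω i).2 <;> cases (ω (i + 1)).2 <;> simp [col, lt_or_ge]
  | succ n ih =>
    intro i b u a h
    rcases u with _ | ⟨c, u⟩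
    · have := congrArg List.length h
      simp [altW_length] at this
    rw [altW, List.cons_append, List.cons.injEq] at h
    obtain ⟨rfl, h⟩ := h
    have h1 := ih (i + 1) (!b) u a h
    have e : i + ((col b :: u).length : ℤ) = i + 1 + u.length := by
      simp only [List.length_cons]; push_cast; ring
    rw [C, e, inter_assoc, h1]
    ext ω
    have e2 : i + 1 + 1 = i + 2 := by ring
    simp only [mem_inter_iff, NP_step, mem_ofPred_eq]
    simp only [Alt, mem_inter_iff, mem_ofPred_eq, e2, W, g]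
    by_cases hp : (ω i).1 < (ω (i + 1)).1 ∧ ¬ (ω (i + 1)).1 < (ω (i + 2)).1
    · simp only [hp, not_false_iff, and_self, if_true, not_true, false_and, iff_false]
      cases b <;> cases (ω i).2 <;> cases (ω (i + 1)).2 <;> cases (ω (i + 2)).2 <;> simp [col]
    · simp only [hp, not_false_iff, if_false, true_and]
      cases b <;> cases (ω i).2 <;> cases (ω (i + 1)).2 <;> cases (ω (i + 2)).2 <;> simp [col]

theorem meas_Alt (n : ℕ) : ∀ i b, MeasurableSet (Alt i n b) := by
  induction n with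
  | zero => intro i b; simp [Alt]
  | succ n ih =>
    intro i b
    exact (measurableSet_eq_fun (by fun_prop) measurable_const).inter (ih _ _)

theorem Alt_flip (n : ℕ) (k : ℤ) (ω : ℤ → E) : ∀ i b, k < i → ω ∈ Alt i n b →
    flip k ω ∈ Alt i n b := by
  induction n with
  | zero => intro i b _ _; simp [Alt]
  | succ n ih =>
    intro i b hk h
    refine ⟨?_, ih _ _ (by omega) h.2⟩
    simp only [mem_ofPred_eq]
    rw [flip_ne (by omega)]
    exact h.1

theorem half (N : Set (ℤ → E)) (hN : MeasurableSet N) (k : ℤ) (b : Bool)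
    (hf : ∀ ω ∈ N, flip k ω ∈ N) : mu.real (N ∩ {ω | (ω k).2 = b}) = mu.real N / 2 := by
  have hm : MeasurableSet {ω : ℤ → E | (ω k).2 = b} :=
    measurableSet_eq_fun (by fun_prop) measurable_const
  have h1 := measureReal_inter_add_diff (μ := mu) (s := N) hm
  have e : N \ {ω | (ω k).2 = b} = flip k ⁻¹' (N ∩ {ω | (ω k).2 = b}) := by
    ext ω
    simp only [mem_diff, mem_preimage, mem_inter_iff, mem_ofPred_eq, flip_self]
    constructor
    · rintro ⟨h2, h3⟩
      exact ⟨hf ω h2, by revert h3; cases b <;> cases (ω k).2 <;> simp⟩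
    · rintro ⟨h2, h3⟩
      have := hf _ h2
      rw [flip_flip] at this
      exact ⟨this, by revert h3; cases b <;> cases (ω k).2 <;> simp⟩
  have h2 : mu.real (N \ {ω | (ω k).2 = b}) = mu.real (N ∩ {ω | (ω k).2 = b}) := by
    rw [e]
    simp only [Measure.real]
    rw [(flip_mp k).measure_preimage (hN.inter hm).nullMeasurableSet]
  linarith

theorem mu_Alt (N : Set (ℤ → E)) (hN : MeasurableSet N) (hf : ∀ k, ∀ ω ∈ N, flip k ω ∈ N)
    (n : ℕ) : ∀ i b, mu.real (N ∩ Alt i n b) = mu.real N / 2 ^ n := by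
  induction n with
  | zero => intro i b; simp [Alt]
  | succ n ih =>
    intro i b
    rw [Alt, inter_comm {ω : ℤ → E | (ω i).2 = b}, ← inter_assoc,
      half _ (hN.inter (meas_Alt _ _ _)) i b
        (fun ω h => ⟨hf _ _ h.1, Alt_flip _ _ _ _ _ (by omega) h.2⟩), ih]
    ring

theorem map_m (i : ℤ) : mu.map (fun (ω : ℤ → E) (t : ℕ) => (ω (i + t)).1) = lam := by
  have h1 := Measure.map_infinitePi_infinitePi_of_inj (P := fun _ : ℤ => nu)
    (f := fun t : ℕ => i + t) (fun a b hab => by simpa using hab)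
  have h2 := Measure.infinitePi_map_pi (fun _ : ℕ => nu) (f := fun _ (e : E) => e.1)
    (fun _ => measurable_fst)
  have h3 : nu.map (fun e : E => e.1) = unif := by
    unfold nu
    exact Measure.fst_prod
  unfold mu lam
  rw [← h3, ← h2, ← h1, Measure.map_map (by fun_prop) (by fun_prop)]
  rfl

theorem NP_pre (i : ℤ) (n : ℕ) : NP i n = (fun (ω : ℤ → E) (t : ℕ) => (ω (i + t)).1) ⁻¹'
    {y | Val n (y 0) (fun t => y (t + 1))} := by
  ext ω
  have e1 : (fun t : ℕ => (ω (i + ((t + 1 : ℕ) : ℤ))).1) =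
      fun t : ℕ => (ω (i + 1 + t)).1 := by
    funext t; congr 2; push_cast; ring
  simp only [NP, mem_ofPred_eq, mem_preimage, e1, Nat.cast_zero, add_zero]

theorem meas_V (n : ℕ) : MeasurableSet {y : ℕ → ℝ | Val n (y 0) (fun t => y (t + 1))} :=
  (show Measurable (fun y : ℕ → ℝ => (y 0, fun t : ℕ => y (t + 1))) by fun_prop) (meas_Val n)

theorem meas_NP (i : ℤ) (n : ℕ) : MeasurableSet (NP i n) := by
  rw [NP_pre]
  exact (show Measurable (fun (ω : ℤ → E) (t : ℕ) => (ω (i + t)).1) by fun_prop) (meas_V n)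

theorem mu_NP (i : ℤ) (n : ℕ) : mu.real (NP i n) = 2 ^ n / (n + 1).factorial := by
  rw [NP_pre, Measure.real, ← Measure.map_apply (by fun_prop) (meas_V n), map_m, lam_NP,
    ENNReal.toReal_ofReal (by positivity)]

theorem base (i : ℤ) (w : List (Fin 3)) (h2 : (2 : Fin 3) ∉ w) : mu.real (C i w) = q w := by
  by_cases hc : w.IsChain (· ≠ ·)
  swap
  · rw [C_empty w i h2 hc, q_not_chain w h2 hc]; simp
  rcases List.eq_nil_or_concat w with rfl | ⟨u, a, rfl⟩
  · simp [C, q_nil]
  rw [List.concat_eq_append] at *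
  rw [q_chain _ u.length (by simp) h2 hc]
  obtain ⟨b, hb⟩ : ∃ b, u ++ [a] = altW b (u.length + 1) := by
    obtain ⟨c, l, hl⟩ := List.exists_cons_of_ne_nil (l := u ++ [a]) (by simp)
    have hlen : l.length = u.length := by
      have := congrArg List.length hl
      simpa using this.symm
    rw [hl] at h2 hc ⊢
    have hc2 : c ≠ 2 := fun h => h2 (by simp [h])
    obtain ⟨b, rfl⟩ : ∃ b, c = col b := by
      fin_cases c
      · exact ⟨true, rfl⟩
      · exact ⟨false, rfl⟩
      · simp at hc2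
    refine ⟨b, ?_⟩
    rw [altW, ← hlen, ← eq_altW l b (fun h => h2 (List.mem_cons_of_mem _ h)) hc]
  have e : C i (u ++ [a]) = C i u ∩ {ω | W (i + u.length) ω = a} := by
    rw [C_append]; simp [C]
  have h3 := flip_lemma i u a univ MeasurableSet.univ (fun _ _ => mem_univ _)
  rw [inter_univ, inter_univ] at h3
  rw [e, Measure.real, h3, D_eq _ i b u a hb, ← Measure.real,
    mu_Alt _ (meas_NP _ _) (fun k ω h => by simpa only [NP, mem_ofPred_eq, flip_fst] using h),
    mu_NP]
  field_simp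
  ring

theorem mu_C (i : ℤ) (w : List (Fin 3)) : mu.real (C i w) = q w :=
  unique (fun i w => mu.real (C i w)) sum_C base i w

theorem mem_C_ofFn (n : ℕ) : ∀ (i : ℤ) (w : Fin n → Fin 3) (ω : ℤ → E),
    ω ∈ C i (List.ofFn w) ↔ ∀ j : Fin n, W (i + j) ω = w j := by
  induction n with
  | zero => intro i w ω; simp [C]
  | succ n ih =>
    intro i w ω
    rw [List.ofFn_succ, C, mem_inter_iff, ih, Fin.forall_fin_succ]
    simp only [mem_ofPred_eq, Fin.val_zero, Nat.cast_zero, add_zero, Fin.val_succ]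
    refine and_congr Iff.rfl (forall_congr' fun j => ?_)
    have : i + 1 + (j : ℕ) = i + ((j : ℕ) + 1 : ℕ) := by push_cast; ring
    rw [this]

noncomputable def f3 (y : Fin 3 → E) : Fin 3 := g (y 0) (y 1) (y 2)

theorem meas_f3 : Measurable f3 :=
  meas_g.comp (f := fun y : Fin 3 → E => (y 0, y 1, y 2)) (by fun_prop)

theorem f3_eq (i : ℤ) (ω : ℤ → E) : f3 (fun k : Fin 3 => ω (i + (k : ℕ))) = W i ω := by
  simp [f3, W]

theorem cyl (i : ℤ) (n : ℕ) (w : Fin n → Fin 3) :
    mu {u | ∀ j : Fin n, f3 (fun k : Fin 3 => u (i + (j : ℕ) + (k : ℕ))) = w j} =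
      ∑ x ∈ Finset.univ.filter (fun x : Fin n → Fin 4 => ∀ j, iota (x j) = w j),
        (bld n x : ENNReal) / (total n : ENNReal) := by
  have e : {u : ℤ → E | ∀ j : Fin n, f3 (fun k : Fin 3 => u (i + (j : ℕ) + (k : ℕ))) = w j} =
      C i (List.ofFn w) := by
    ext ω
    simp only [mem_ofPred_eq, f3_eq, mem_C_ofFn]
  have h := mu_C i (List.ofFn w)
  have ht : 0 < total n := by rw [total_eq]; positivity
  rw [e, ← ofReal_measureReal, h, q, Q, ← sumL_ofFn, List.length_ofFn,
    ENNReal.ofReal_div_of_pos (by exact_mod_cast ht), ENNReal.ofReal_natCast,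
    ENNReal.ofReal_natCast, Nat.cast_sum]
  simp only [div_eq_mul_inv, Finset.sum_mul, bld_eq]

end Pool.Agent.H444Z.BF
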